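import Pool.Agent.Q193.UH.Witt

/-!
# An affine Hopf algebra whose Arens-Michael envelope is one-dimensional

The enveloping algebra of the Lie algebra of polynomial vector fields on the line is a finitely
generated (cocommutative) complex Hopf algebra, and all submultiplicative seminorms on it vanish on
its augmentation ideal, which is nonzero. So the canonical map to its Arens-Michael envelope is
not injective.
-/

set_option autoImplicit false

namespace Pool.Agent.Results.MP_f83094_an.EnvelopeKernel

open Pool.Agent.Q193.UH

/-- Negative answer to Q1: there are a finitely generated complex Hopf algebra `H` and a nonzero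
`h : H` on which all submultiplicative seminorms of `H` vanish. Moreover all submultiplicative
seminorms of this `H` vanish on the whole kernel of the counit. -/
theorem result : ∃ (H : Type) (_ : Ring H) (_ : HopfAlgebra ℂ H),
    Algebra.FiniteType ℂ H ∧
    (∃ h : H, h ≠ 0 ∧
      ∀ p : Seminorm ℂ H, (∀ a b : H, p (a * b) ≤ p a * p b) → p h = 0) ∧
    ∀ p : Seminorm ℂ H, (∀ a b : H, p (a * b) ≤ p a * p b) →
      ∀ h : H, Coalgebra.counit (R := ℂ) h = 0 → p h = 0 := by
  have key : ∀ p : Seminorm ℂ (U ℂ G), (∀ a b, p (a * b) ≤ p a * p b) →
      ∀ h : U ℂ G, Coalgebra.counit (R := ℂ) h = 0 → p h = 0 := by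
    intro p hp h hh
    have := p_counit p hp h
    rwa [hh, map_zero, sub_zero] at this
  refine ⟨U ℂ G, inferInstance, inferInstance, finiteType, ⟨x 0, x_ne 0, ?_⟩, key⟩
  intro p hp
  exact key p hp _ (counit_x 0)

end Pool.Agent.Results.MP_f83094_an.EnvelopeKernel
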